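import Pool.Agent.Helper6.RG.Psi

/-!
Read-once blocks as tree programs: one point of the generator with one seed is good for a whole
block.
-/

namespace Pool.Agent.Helper6.RG

open MvPolynomial Module Matrix
open Pool.Agent.Helper8.Tree

variable {m n : ℕ}

/-- the vector `(1, x, 0, …, 0)` -/
def vec {R : Type*} [Zero R] [One R] (x : R) : Fin (m + 2) → R :=
  fun a => if a = 0 then 1 else if a = 1 then x else 0

/-- the gate `(1, x), (1, y) ↦ (1, a x y + b x + c y + d)` -/
def Bg (a b c d : ℚ) : Fin (m + 2) → Fin (m + 2) → Fin (m + 2) → ℚ := fun i j k =>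
  if i = 0 then (if j = 0 then (if k = 0 then 1 else 0) else 0)
  else if i = 1 then
    (if j = 0 then (if k = 0 then d else if k = 1 then c else 0)
    else if j = 1 then (if k = 0 then b else if k = 1 then a else 0) else 0)
  else 0

/-- the matrix with lower row `(u, v)` -/
def Nm (u v : ℚ) : Matrix (Fin (m + 2)) (Fin (m + 2)) ℚ := Matrix.of fun i j =>
  if i = 0 then (if j = 0 then 1 else 0)
  else if i = 1 then (if j = 0 then u else if j = 1 then v else 0) else 0

theorem one_ne_zero' : (1 : Fin (m + 2)) ≠ 0 := by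
  intro h
  have := congrArg Fin.val h
  simp at this

theorem sum_two {M : Type*} [AddCommMonoid M] (f : Fin (m + 2) → M)
    (h : ∀ a, a ≠ 0 → a ≠ 1 → f a = 0) : ∑ a, f a = f 0 + f 1 := by
  rw [Fin.sum_univ_succ, Fin.sum_univ_succ]
  rw [Finset.sum_eq_zero, add_zero]
  · rfl
  · intro a _
    apply h
    · exact Fin.succ_ne_zero _
    · intro h1
      have := congrArg Fin.val h1
      simp at this

theorem Nm_mul (u v u' v' : ℚ) :
    (Nm u v * Nm u' v' : Matrix (Fin (m + 2)) (Fin (m + 2)) ℚ) = Nm (u + v * u') (v * v') := by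
  ext i j
  rw [Matrix.mul_apply, sum_two _ (by
    intro a h0 h1
    simp [Nm, h0, h1])]
  unfold Nm
  simp only [Matrix.of_apply]
  by_cases hi : i = 0
  · subst hi
    simp [one_ne_zero']
  · by_cases hi1 : i = 1
    · subst hi1
      by_cases hj : j = 0
      · subst hj
        simp [one_ne_zero']
      · by_cases hj1 : j = 1
        · subst hj1
          simp [one_ne_zero']
        · simp [hj, hj1, one_ne_zero']
    · simp [hi, hi1]

theorem rank_Nm_le {u v u' v' : ℚ} (h : v' ≠ 0 → v ≠ 0) :
    (Nm u' v' : Matrix (Fin (m + 2)) (Fin (m + 2)) ℚ).rank ≤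
      (Nm u v : Matrix (Fin (m + 2)) (Fin (m + 2)) ℚ).rank := by
  have h1 : (Nm u' v' : Matrix (Fin (m + 2)) (Fin (m + 2)) ℚ) =
      Nm (u' - v' / v * u) (v' / v) * Nm u v := by
    rw [Nm_mul]
    have h2 : v' / v * v = v' := by
      by_cases hv : v = 0
      · have : v' = 0 := by
          by_contra h3
          exact h h3 hv
        rw [this, hv]; simp
      · field_simp
    rw [h2]
    congr 1
    ring
  rw [h1]
  exact Matrix.rank_mul_le_right _ _

/-- blocks -/
inductive Blk : Prog ℚ (m + 2) n → MvPolynomial (Fin n) ℚ → Finset (Fin n) → Prop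
  | leaf (i : Fin n) (F : Polynomial ℚ) (hF : F.natDegree ≠ 0) :
      Blk (Prog.leaf i (vec F)) (Polynomial.aeval (X i) F) {i}
  | node (a b c d : ℚ) {l r : Prog ℚ (m + 2) n} {f g : MvPolynomial (Fin n) ℚ}
      {S T : Finset (Fin n)} (hl : Blk l f S) (hr : Blk r g T) (hd : Disjoint S T)
      (h : a ≠ 0 ∨ b ≠ 0 ∨ c ≠ 0) :
      Blk (Prog.node (Bg a b c d) l r) (C a * f * g + C b * f + C c * g + C d) (S ∪ T)

theorem Blk.mem_Sdiv {T : Prog ℚ (m + 2) n} {f : MvPolynomial (Fin n) ℚ} {S : Finset (Fin n)}
    (h : Blk T f S) : ∀ j, j ∉ S → Psi n f ∈ Sdiv (j.val : ℚ) := by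
  induction h with
  | leaf i F hF =>
    intro j hj
    apply aeval_X_mem_Sdiv
    rintro rfl
    exact hj (Finset.mem_singleton_self _)
  | @node a b c d l r f g S T _ _ _ _ ih1 ih2 =>
    intro j hj
    rw [Finset.mem_union, not_or] at hj
    have h1 := ih1 j hj.1
    have h2 := ih2 j hj.2
    have h3 : ∀ q : ℚ, Psi n (C q) ∈ Sdiv (j.val : ℚ) := by
      intro q
      rw [Psi_C]
      exact (Sdiv (j.val : ℚ)).algebraMap_mem q
    simp only [map_add, map_mul]
    exact add_mem (add_mem (add_mem (mul_mem (mul_mem (h3 a) h1) h2) (mul_mem (h3 b) h1))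
      (mul_mem (h3 c) h2)) (h3 d)

theorem Blk.nc {T : Prog ℚ (m + 2) n} {f : MvPolynomial (Fin n) ℚ} {S : Finset (Fin n)}
    (h : Blk T f S) : NC f := by
  induction h with
  | leaf i F hF => exact NC_aeval_X i hF
  | @node a b c d l r f g S T hl hr hd habc ih1 ih2 =>
    by_cases ha : a = 0
    · subst ha
      have e1 : C 0 * f * g + C b * f + C c * g + C d = C b * f + C c * g + C d := by
        rw [C_0]; ring
      rw [e1]
      apply NC.add_C
      by_cases hb : b = 0
      · subst hb
        have hc : c ≠ 0 := by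
          rcases habc with h | h | h
          · exact absurd rfl h
          · exact absurd rfl h
          · exact h
        have e2 : C 0 * f + C c * g = C c * g := by rw [C_0]; ring
        rw [e2]
        exact ih2.C_mul hc
      · refine NC_add hd ?_ ?_ (ih1.C_mul hb)
        · intro j hj
          rw [map_mul, Psi_C]
          exact mul_mem ((Sdiv (j.val : ℚ)).algebraMap_mem b) (hl.mem_Sdiv j hj)
        · intro j hj
          rw [map_mul, Psi_C]
          exact mul_mem ((Sdiv (j.val : ℚ)).algebraMap_mem c) (hr.mem_Sdiv j hj)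
    · have e1 : C a * f * g + C b * f + C c * g + C d =
          C a * ((f + C (c / a)) * (g + C (b / a))) + C (d - b * c / a) := by
        have h1 : (C c : MvPolynomial (Fin n) ℚ) = C a * C (c / a) := by
          rw [← C_mul]; congr 1; field_simp
        have h2 : (C b : MvPolynomial (Fin n) ℚ) = C a * C (b / a) := by
          rw [← C_mul]; congr 1; field_simp
        have h3 : (C d : MvPolynomial (Fin n) ℚ) =
            C a * (C (c / a) * C (b / a)) + C (d - b * c / a) := by
          rw [← C_mul, ← C_mul, ← C_add]; congr 1; field_simp; ring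
        rw [h1, h2, h3]
        ring
      rw [e1]
      apply NC.add_C
      apply NC.C_mul _ ha
      exact (ih1.add_C _).mul (ih2.add_C _).Psi_ne_zero

theorem Blk.poly {T : Prog ℚ (m + 2) n} {f : MvPolynomial (Fin n) ℚ} {S : Finset (Fin n)}
    (h : Blk T f S) : T.poly = vec f := by
  induction h with
  | leaf i F hF =>
    funext a
    simp only [Prog.poly, vec]
    split_ifs <;> simp
  | @node a b c d l r f g S T hl hr hd habc ih1 ih2 =>
    funext i
    simp only [Prog.poly, ih1, ih2]
    rw [sum_two _ (by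
      intro j h0 h1
      apply Finset.sum_eq_zero
      intro k _
      simp [vec, h0, h1])]
    rw [sum_two _ (by
      intro k h0 h1
      simp [vec, h0, h1])]
    rw [sum_two _ (by
      intro k h0 h1
      simp [vec, h0, h1])]
    by_cases hi : i = 0
    · subst hi
      simp [vec, Bg, one_ne_zero']
    · by_cases hi1 : i = 1
      · subst hi1
        simp [vec, Bg, one_ne_zero']
        ring
      · simp [vec, Bg, hi, hi1]

theorem Blk.cnt {T : Prog ℚ (m + 2) n} {f : MvPolynomial (Fin n) ℚ} {S : Finset (Fin n)}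
    (h : Blk T f S) (i : Fin n) : T.cnt i ≤ if i ∈ S then 1 else 0 := by
  induction h with
  | leaf j F hF =>
    simp only [Prog.cnt, Finset.mem_singleton]
    split_ifs with h1 h2
    · exact le_rfl
    · exact absurd h1.symm h2
    · exact Nat.zero_le _
    · exact le_rfl
  | @node a b c d l r f g S T hl hr hd habc ih1 ih2 =>
    simp only [Prog.cnt]
    by_cases h1 : i ∈ S
    · have h2 : i ∉ T := Finset.disjoint_left.1 hd h1
      rw [if_pos h1] at ih1
      rw [if_neg h2] at ih2
      rw [if_pos (Finset.mem_union_left _ h1)]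
      omega
    · rw [if_neg h1] at ih1
      by_cases h2 : i ∈ T
      · rw [if_pos h2] at ih2
        rw [if_pos (Finset.mem_union_right _ h2)]
        omega
      · rw [if_neg h2] at ih2
        rw [if_neg (by rw [Finset.mem_union]; exact fun h => h.elim h1 h2)]
        omega

/-- the frames inside a block -/
def GF (F : Frame ℚ (m + 2) n) : Prop :=
  ∃ p q : MvPolynomial (Fin n) ℚ, (Psi n q ≠ 0 ∨ q = 0) ∧
    ∀ g, fmat F g = Nm (eval g p) (eval g q)

theorem GF.left {T : Prog ℚ (m + 2) n} {f : MvPolynomial (Fin n) ℚ} {S : Finset (Fin n)}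
    (h : Blk T f S) (a b c d : ℚ) : GF (Bg a b c d, T) := by
  refine ⟨C c * f + C d, C a * f + C b, ?_, ?_⟩
  · by_cases ha : a = 0
    · subst ha
      rw [C_0, zero_mul, zero_add]
      by_cases hb : b = 0
      · right; rw [hb, C_0]
      · left
        rw [Psi_C, Ne, Polynomial.C_eq_zero, Polynomial.C_eq_zero]
        exact hb
    · left
      exact ((h.nc.C_mul ha).add_C b).Psi_ne_zero
  · intro g
    have hv : T.val g = vec (eval g f) := by
      funext e
      rw [← T.eval_poly, h.poly]
      unfold vec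
      split_ifs <;> simp
    ext i j
    simp only [fmat, Matrix.of_apply, hv]
    rw [sum_two _ (by
      intro k h0 h1
      simp [vec, h0, h1])]
    by_cases hi : i = 0
    · subst hi
      by_cases hj : j = 0
      · subst hj
        simp [vec, Bg, Nm, one_ne_zero']
      · simp [vec, Bg, Nm, hj]
    · by_cases hi1 : i = 1
      · subst hi1
        by_cases hj : j = 0
        · subst hj
          simp [vec, Bg, Nm, one_ne_zero']
          ring
        · by_cases hj1 : j = 1
          · subst hj1
            simp [vec, Bg, Nm, one_ne_zero']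
            ring
          · simp [vec, Bg, Nm, hj, hj1]
      · simp [vec, Bg, Nm, hi, hi1]

theorem Bg_swap (a b c d : ℚ) :
    (fun i j k : Fin (m + 2) => Bg a b c d i k j) = Bg a c b d := by
  funext i j k
  unfold Bg
  by_cases hi : i = 0
  · by_cases hj : j = 0 <;> by_cases hk : k = 0 <;> simp [hi, hj, hk]
  · by_cases hi1 : i = 1
    · by_cases hj : j = 0 <;> by_cases hk : k = 0 <;> by_cases hj1 : j = 1 <;>
        by_cases hk1 : k = 1 <;> simp_all
    · simp [hi, hi1]

theorem GF.right {T : Prog ℚ (m + 2) n} {f : MvPolynomial (Fin n) ℚ} {S : Finset (Fin n)}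
    (h : Blk T f S) (a b c d : ℚ) : GF (fun i j k => Bg a b c d i k j, T) := by
  rw [Bg_swap]
  exact GF.left h a c b d

theorem Blk.path {T T' : Prog ℚ (m + 2) n} {f : MvPolynomial (Fin n) ℚ} {S : Finset (Fin n)}
    {D : List (Frame ℚ (m + 2) n)} (h : Blk T f S) (hp : Path T D T') :
    (∀ F ∈ D, GF F) ∧ ∃ f' S', Blk T' f' S' := by
  induction h generalizing T' D with
  | leaf j F hF =>
    cases hp
    exact ⟨by simp, _, _, Blk.leaf j F hF⟩
  | @node a b c d l r f g S T hl hr hd habc ih1 ih2 =>
    cases hp with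
    | nil => exact ⟨by simp, _, _, Blk.node a b c d hl hr hd habc⟩
    | left _ hp =>
      obtain ⟨h1, h2⟩ := ih1 hp
      refine ⟨?_, h2⟩
      intro F hF
      rcases List.mem_cons.1 hF with rfl | hF
      · exact GF.left hr a b c d
      · exact h1 F hF
    | right _ hp =>
      obtain ⟨h1, h2⟩ := ih2 hp
      refine ⟨?_, h2⟩
      intro F hF
      rcases List.mem_cons.1 hF with rfl | hF
      · exact GF.right hl a b c d
      · exact h1 F hF

theorem cmat_GF : ∀ (D : List (Frame ℚ (m + 2) n)), D ≠ [] → (∀ F ∈ D, GF F) →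
    ∃ p q : MvPolynomial (Fin n) ℚ, (Psi n q ≠ 0 ∨ q = 0) ∧
      ∀ g, cmat D g = Nm (eval g p) (eval g q)
  | [], h, _ => absurd rfl h
  | [F], _, h => by
    obtain ⟨p, q, h1, h2⟩ := h F (by simp)
    refine ⟨p, q, h1, fun g => ?_⟩
    rw [cmat_cons, cmat_nil, mul_one, h2]
  | F :: F' :: D, _, h => by
    obtain ⟨p, q, h1, h2⟩ := h F (by simp)
    obtain ⟨p', q', h1', h2'⟩ := cmat_GF (F' :: D) (by simp) (fun G hG => h G (by
      rw [List.mem_cons]; exact Or.inr hG))
    refine ⟨p + q * p', q * q', ?_, fun g => ?_⟩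
    · rcases h1 with h1 | h1
      · rcases h1' with h1' | h1'
        · left
          rw [map_mul]
          exact mul_ne_zero h1 h1'
        · right; rw [h1', mul_zero]
      · right; rw [h1, zero_mul]
    · rw [cmat_cons, h2, h2', Nm_mul]
      simp

/-- **one seed is enough for a block** -/
theorem Blk.allGood {T : Prog ℚ (m + 2) n} {f : MvPolynomial (Fin n) ℚ} {S : Finset (Fin n)}
    (h : Blk T f S) : ∃ g ∈ Helper5.G n 1, AllGood g T := by
  obtain ⟨g, hg, hgood⟩ := G_good 1 (finite_inside T).toFinset (by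
    intro D hD
    rw [Set.Finite.mem_toFinset] at hD
    obtain ⟨C0, v, u, h1, h2⟩ := hD
    obtain ⟨_, f', S', h3⟩ := h.path h1
    obtain ⟨h4, _⟩ := h3.path h2
    rcases eq_or_ne D [] with rfl | hne
    · obtain ⟨g, hg⟩ := G_nonempty n 1
      exact ⟨g, hg, fun g' => by rw [cmat_nil, cmat_nil]⟩
    · obtain ⟨p, q, h5, h6⟩ := cmat_GF D hne h4
      rcases h5 with h5 | h5
      · obtain ⟨s, hs⟩ := exists_seed_of_Psi h5
        refine ⟨_, ⟨s, rfl⟩, fun g' => ?_⟩
        rw [h6, h6]
        exact rank_Nm_le fun _ => hs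
      · obtain ⟨g, hg⟩ := G_nonempty n 1
        refine ⟨g, hg, fun g' => ?_⟩
        rw [h6, h6, h5]
        exact rank_Nm_le fun h => absurd (map_zero _) h)
  exact ⟨g, hg, fun D hD => hgood D (by rwa [Set.Finite.mem_toFinset])⟩

end Pool.Agent.Helper6.RG
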