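import Pool.Agent.Helper6.RG.HR
import Pool.Agent.Helper8.Tree.Final

/-!
From trees over read-once formulas to tree programs.
-/

namespace Pool.Agent.Helper6.RG

open MvPolynomial Module Matrix
open Pool.Agent.Helper8
open Pool.Agent.Helper8.Tree (Prog AllGood kap size_le)

variable {m n : ℕ}

theorem sum4' {α β γ δ M : Type*} [Fintype α] [Fintype β] [Fintype γ] [Fintype δ]
    [AddCommMonoid M] (f : α → β → γ → δ → M) :
    ∑ b, ∑ c, ∑ c', ∑ b', f b c c' b' = ∑ b', ∑ c', ∑ b, ∑ c, f b c c' b' := by
  conv_lhs => enter [2, b, 2, c]; rw [Finset.sum_comm]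
  conv_lhs => enter [2, b]; rw [Finset.sum_comm]
  conv_lhs => enter [2, b, 2, b']; rw [Finset.sum_comm]
  rw [Finset.sum_comm]
  apply Finset.sum_congr rfl
  intro b' _
  rw [Finset.sum_comm]

/-- read-once formulas as blocks -/
theorem blk_of_readOnce {f : MvPolynomial (Fin n) ℚ} {S : Finset (Fin n)} (h : ReadOnce f S) :
    (∃ c, f = C c) ∨ ∃ (T : Prog ℚ (m + 2) n) (g : MvPolynomial (Fin n) ℚ) (S' : Finset (Fin n))
      (α β : ℚ), Blk T g S' ∧ S' ⊆ S ∧ f = C α * g + C β := by
  induction h with
  | const c => exact Or.inl ⟨c, rfl⟩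
  | leaf i F =>
    by_cases hF : F.natDegree = 0
    · left
      obtain ⟨c, rfl⟩ : ∃ c, F = Polynomial.C c := ⟨_, Polynomial.eq_C_of_natDegree_eq_zero hF⟩
      exact ⟨c, by rw [Polynomial.aeval_C]; rfl⟩
    · right
      exact ⟨_, _, _, 1, 0, Blk.leaf i F hF, subset_rfl, by simp⟩
  | @add f g S T hd _ _ ih1 ih2 =>
    rcases ih1 with ⟨c, rfl⟩ | ⟨T1, g1, S1, α, β, h1, h2, rfl⟩
    · rcases ih2 with ⟨c', rfl⟩ | ⟨T2, g2, S2, α', β', h1', h2', rfl⟩
      · exact Or.inl ⟨c + c', by rw [C_add]⟩
      · exact Or.inr ⟨T2, g2, S2, α', c + β', h1', h2'.trans Finset.subset_union_right, by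
          rw [C_add]; ring⟩
    · rcases ih2 with ⟨c', rfl⟩ | ⟨T2, g2, S2, α', β', h1', h2', rfl⟩
      · exact Or.inr ⟨T1, g1, S1, α, β + c', h1, h2.trans Finset.subset_union_left, by
          rw [C_add]; ring⟩
      · by_cases h0 : (0 : ℚ) ≠ 0 ∨ α ≠ 0 ∨ α' ≠ 0
        · right
          exact ⟨_, _, _, 1, 0, Blk.node 0 α α' (β + β') h1 h1'
            (Finset.disjoint_of_subset_left h2 (Finset.disjoint_of_subset_right h2' hd)) h0,
            Finset.union_subset_union h2 h2', by
              rw [C_add, C_0, C_1]; ring⟩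
        · left
          push Not at h0
          obtain ⟨_, rfl, rfl⟩ := h0
          exact ⟨β + β', by rw [C_add, C_0]; ring⟩
  | @mul f g S T hd _ _ ih1 ih2 =>
    rcases ih1 with ⟨c, rfl⟩ | ⟨T1, g1, S1, α, β, h1, h2, rfl⟩
    · rcases ih2 with ⟨c', rfl⟩ | ⟨T2, g2, S2, α', β', h1', h2', rfl⟩
      · exact Or.inl ⟨c * c', by rw [C_mul]⟩
      · exact Or.inr ⟨T2, g2, S2, c * α', c * β', h1', h2'.trans Finset.subset_union_right, by
          rw [C_mul, C_mul]; ring⟩
    · rcases ih2 with ⟨c', rfl⟩ | ⟨T2, g2, S2, α', β', h1', h2', rfl⟩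
      · exact Or.inr ⟨T1, g1, S1, α * c', β * c', h1, h2.trans Finset.subset_union_left, by
          rw [C_mul, C_mul]; ring⟩
      · by_cases h0 : α * α' ≠ 0 ∨ α * β' ≠ 0 ∨ β * α' ≠ 0
        · right
          exact ⟨_, _, _, 1, 0, Blk.node (α * α') (α * β') (β * α') (β * β') h1 h1'
            (Finset.disjoint_of_subset_left h2 (Finset.disjoint_of_subset_right h2' hd)) h0,
            Finset.union_subset_union h2 h2', by
              rw [C_mul, C_mul, C_mul, C_mul, C_0, C_1]; ring⟩
        · left
          push Not at h0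
          obtain ⟨e1, e2, e3⟩ := h0
          refine ⟨β * β', ?_⟩
          have : (C α * g1 + C β) * (C α' * g2 + C β') =
              C (α * α') * g1 * g2 + C (α * β') * g1 + C (β * α') * g2 + C (β * β') := by
            rw [C_mul, C_mul, C_mul, C_mul]; ring
          rw [this, e1, e2, e3, C_0]
          ring

/-- the programs attached to a vector of polynomials -/
def Cv (p : Fin (m + 1) → MvPolynomial (Fin n) ℚ) (r : Fin n → ℕ) (s : ℕ) : Prop :=
  (∃ v : Fin (m + 1) → ℚ, ∀ a, p a = C (v a)) ∨
    ∃ (T : Prog ℚ (m + 2) n) (A : Fin (m + 1) → Fin (m + 2) → ℚ), (∀ i, T.cnt i ≤ r i) ∧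
      HR 1 s T ∧ T.poly 0 = 1 ∧ ∀ a, p a = ∑ b, C (A a b) * T.poly b

theorem Cv.mono {p : Fin (m + 1) → MvPolynomial (Fin n) ℚ} {r r' : Fin n → ℕ} {s s' : ℕ}
    (h : Cv p r s) (hr : ∀ i, r i ≤ r' i) (hs : s ≤ s') : Cv p r' s' := by
  rcases h with h | ⟨T, A, h1, h2, h3, h4⟩
  · exact Or.inl h
  · exact Or.inr ⟨T, A, fun i => (h1 i).trans (hr i), h2.mono hs, h3, h4⟩

theorem Cv.node {T T' : Prog ℚ (m + 2) n} {s s' : ℕ} (h : HR 1 s T) (h' : HR 1 s' T')
    (h0 : T.poly 0 = 1) (h0' : T'.poly 0 = 1) (D : Fin (m + 1) → Fin (m + 2) → Fin (m + 2) → ℚ)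
    {r r' : Fin n → ℕ} (hr : ∀ i, T.cnt i ≤ r i) (hr' : ∀ i, T'.cnt i ≤ r' i)
    {p : Fin (m + 1) → MvPolynomial (Fin n) ℚ}
    (hp : ∀ a, p a = ∑ b, ∑ c, C (D a b c) * T.poly b * T'.poly c) :
    Cv p (r + r') (reg s s') := by
  right
  refine ⟨Prog.node (fun a b c => Fin.cases (motive := fun _ => ℚ)
      (if b = 0 then (if c = 0 then 1 else 0) else 0) (fun a => D a b c) a) T T',
    fun a b => if b = a.succ then 1 else 0, fun i => Nat.add_le_add (hr i) (hr' i),
    HR.node _ h h', ?_, ?_⟩
  · simp only [Prog.poly, Fin.cases_zero]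
    rw [Finset.sum_eq_single (0 : Fin (m + 2))]
    · rw [Finset.sum_eq_single (0 : Fin (m + 2))]
      · simp [h0, h0']
      · intro c _ hc; simp [hc]
      · intro h; exact absurd (Finset.mem_univ _) h
    · intro b _ hb; simp [hb]
    · intro h; exact absurd (Finset.mem_univ _) h
  · intro a
    rw [Finset.sum_eq_single a.succ]
    · simp only [Prog.poly, Fin.cases_succ, if_true, C_1, one_mul]
      exact hp a
    · intro b _ hb; simp [hb]
    · intro h; exact absurd (Finset.mem_univ _) h

/-- trees as tree programs -/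
theorem Tree.cv {p : Fin (m + 1) → MvPolynomial (Fin n) ℚ} {r : Fin n → ℕ} {s : ℕ}
    (h : Tree (m + 1) n p r s) : Cv p r s := by
  classical
  induction h with
  | const v => exact Or.inl ⟨v, fun _ => rfl⟩
  | leaf i F =>
    refine Or.inr ⟨Prog.leaf i (Fin.cons 1 F), fun a b => if b = a.succ then 1 else 0, ?_,
      HR.leaf 1 i _, ?_, ?_⟩
    · intro j
      simp only [Prog.cnt]
      by_cases h : i = j
      · subst h; simp
      · simp [h]
    · simp [Prog.poly]
    · intro a
      rw [Finset.sum_eq_single a.succ]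
      · simp [Prog.poly]
      · intro b _ hb; simp [hb]
      · intro h; exact absurd (Finset.mem_univ _) h
  | once h =>
    rcases blk_of_readOnce (m := m) h with ⟨c, rfl⟩ | ⟨T, g, S', α, β, h1, h2, rfl⟩
    · exact Or.inl ⟨fun _ => c, fun _ => rfl⟩
    · refine Or.inr ⟨T, fun _ b => if b = 0 then β else if b = 1 then α else 0, ?_,
        h1.allGood, ?_, ?_⟩
      · intro i
        refine (h1.cnt i).trans ?_
        dsimp only
        by_cases hi : i ∈ S'
        · rw [if_pos hi, if_pos (h2 hi)]
        · rw [if_neg hi]; exact Nat.zero_le _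
      · rw [h1.poly]; simp [vec]
      · intro a
        rw [sum_two _ (by
          intro b hb hb1
          simp [hb, hb1]), h1.poly]
        simp [vec, one_ne_zero']
        ring
  | @affine M v p r s _ ih =>
    rcases ih with ⟨c, hc⟩ | ⟨T, A, h1, h2, h3, h4⟩
    · refine Or.inl ⟨fun a => ∑ b, M a b * c b + v a, fun a => ?_⟩
      simp only [hc, C_add, map_sum, C_mul]
    · refine Or.inr ⟨T, fun a b => ∑ b', M a b' * A b' b + (if b = 0 then v a else 0), h1, h2, h3,
        fun a => ?_⟩
      simp only [h4, C_add, map_sum, C_mul, add_mul, Finset.sum_add_distrib]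
      congr 1
      · simp only [Finset.mul_sum, Finset.sum_mul]
        rw [Finset.sum_comm]
        apply Finset.sum_congr rfl
        intro b _
        apply Finset.sum_congr rfl
        intro b' _
        ring
      · rw [Finset.sum_eq_single (0 : Fin (m + 2))]
        · simp [h3]
        · intro b _ hb; simp [hb]
        · intro h; exact absurd (Finset.mem_univ _) h
  | @add p p' r r' s s' _ _ ih1 ih2 =>
    have key : ∀ (T : Prog ℚ (m + 2) n) (A : Fin (m + 1) → Fin (m + 2) → ℚ) (v : Fin (m + 1) → ℚ)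
        (a : Fin (m + 1)), T.poly 0 = 1 → ∑ b, C (A a b) * T.poly b + C (v a) =
          ∑ b, C (A a b + (if b = 0 then v a else 0)) * T.poly b := by
      intro T A v a h0
      simp only [C_add, add_mul, Finset.sum_add_distrib]
      congr 1
      rw [Finset.sum_eq_single (0 : Fin (m + 2))]
      · simp [h0]
      · intro b _ hb; simp [hb]
      · intro h; exact absurd (Finset.mem_univ _) h
    rcases ih1 with ⟨c, hc⟩ | ⟨T, A, h1, h2, h3, h4⟩
    · rcases ih2 with ⟨c', hc'⟩ | ⟨T', A', h1', h2', h3', h4'⟩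
      · exact Or.inl ⟨fun a => c a + c' a, fun a => by rw [Pi.add_apply, hc, hc', C_add]⟩
      · refine Or.inr ⟨T', fun a b => A' a b + (if b = 0 then c a else 0),
          fun i => (h1' i).trans (Nat.le_add_left _ _), h2'.mono (le_reg_right _ _), h3',
          fun a => ?_⟩
        rw [Pi.add_apply, hc, h4', add_comm]
        exact key T' A' c a h3'
    · rcases ih2 with ⟨c', hc'⟩ | ⟨T', A', h1', h2', h3', h4'⟩
      · refine Or.inr ⟨T, fun a b => A a b + (if b = 0 then c' a else 0),
          fun i => (h1 i).trans (Nat.le_add_right _ _), h2.mono (le_reg_left _ _), h3,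
          fun a => ?_⟩
        rw [Pi.add_apply, hc', h4]
        exact key T A c' a h3
      · apply Cv.node h2 h2' h3 h3' (fun a b c => (if c = 0 then A a b else 0) +
          (if b = 0 then A' a c else 0)) h1 h1'
        intro a
        rw [Pi.add_apply, h4, h4']
        simp only [C_add, add_mul, Finset.sum_add_distrib]
        congr 1
        · apply Finset.sum_congr rfl
          intro b _
          rw [Finset.sum_eq_single (0 : Fin (m + 2))]
          · simp [h3']
          · intro c _ hc; simp [hc]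
          · intro h; exact absurd (Finset.mem_univ _) h
        · rw [Finset.sum_comm]
          apply Finset.sum_congr rfl
          intro c _
          rw [Finset.sum_eq_single (0 : Fin (m + 2))]
          · simp [h3]
          · intro b _ hb; simp [hb]
          · intro h; exact absurd (Finset.mem_univ _) h
  | @gate B p p' r r' s s' _ _ ih1 ih2 =>
    rcases ih1 with ⟨c, hc⟩ | ⟨T, A, h1, h2, h3, h4⟩
    · rcases ih2 with ⟨c', hc'⟩ | ⟨T', A', h1', h2', h3', h4'⟩
      · refine Or.inl ⟨fun a => ∑ x, ∑ y, B a x y * c x * c' y, fun a => ?_⟩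
        simp only [hc, hc', map_sum, map_mul]
      · refine Or.inr ⟨T', fun a b' => ∑ x, ∑ y, B a x y * c x * A' y b',
          fun i => (h1' i).trans (Nat.le_add_left _ _), h2'.mono (le_reg_right _ _), h3',
          fun a => ?_⟩
        simp only [hc, h4', map_sum, map_mul, Finset.mul_sum, Finset.sum_mul]
        conv_rhs => rw [Finset.sum_comm]
        apply Finset.sum_congr rfl
        intro x _
        conv_rhs => rw [Finset.sum_comm]
        apply Finset.sum_congr rfl
        intro y _
        apply Finset.sum_congr rfl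
        intro b' _
        ring
    · rcases ih2 with ⟨c', hc'⟩ | ⟨T', A', h1', h2', h3', h4'⟩
      · refine Or.inr ⟨T, fun a b' => ∑ x, ∑ y, B a x y * A x b' * c' y,
          fun i => (h1 i).trans (Nat.le_add_right _ _), h2.mono (le_reg_left _ _), h3,
          fun a => ?_⟩
        simp only [hc', h4, map_sum, map_mul, Finset.mul_sum, Finset.sum_mul]
        conv_rhs => rw [Finset.sum_comm]
        apply Finset.sum_congr rfl
        intro x _
        conv_rhs => rw [Finset.sum_comm]
        apply Finset.sum_congr rfl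
        intro y _
        apply Finset.sum_congr rfl
        intro b' _
        ring
      · apply Cv.node h2 h2' h3 h3' (fun a b' c' => ∑ b, ∑ c, B a b c * A b b' * A' c c') h1 h1'
        intro a
        simp only [h4, h4', map_sum, map_mul, Finset.mul_sum, Finset.sum_mul]
        rw [sum4']
        apply Finset.sum_congr rfl
        intro b' _
        apply Finset.sum_congr rfl
        intro c' _
        apply Finset.sum_congr rfl
        intro b _
        apply Finset.sum_congr rfl
        intro c _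
        ring

/-- the number of seeds for trees -/
def seedsT (w k s : ℕ) : ℕ := 1 + s * ((w + 2) * kap (w + 1) k) + kap (w + 1) k

/-- **Hitting theorem** for trees over read-once formulas. -/
theorem hit_Tree {w k s t : ℕ} {p : Fin w → MvPolynomial (Fin n) ℚ} {r : Fin n → ℕ}
    (h : Tree w n p r t) (hr : ∀ i, r i ≤ k) (hs : t ≤ s ∨ k * n ≤ 2 ^ s) (a : Fin w)
    (ha : p a ≠ 0) : ∃ g ∈ Helper5.G n (seedsT w k s), eval g (p a) ≠ 0 := by
  classical
  obtain ⟨m, rfl⟩ : ∃ m, w = m + 1 := ⟨w - 1, by have := a.pos; omega⟩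
  rcases h.cv with ⟨v, hv⟩ | ⟨T, A, h1, h2, h3, h4⟩
  · obtain ⟨g, hg⟩ := Tree.G_nonempty n (seedsT (m + 1) k s)
    refine ⟨g, hg, ?_⟩
    rw [hv a] at ha ⊢
    rw [eval_C]
    intro h0
    apply ha
    rw [h0, C_0]
  · have h5 : HR 1 s T := by
      rcases hs with hs | hs
      · exact h2.mono hs
      · exact HR.of_size 1 s T ((size_le T fun i => (h1 i).trans (hr i)).trans hs)
    have hev : ∀ x, eval x (p a) = A a ⬝ᵥ T.val x := by
      intro x
      rw [h4 a]
      simp only [map_sum, map_mul, eval_C, T.eval_poly, dotProduct]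
    obtain ⟨g, hg, h6⟩ := hit_HR T (fun i => (h1 i).trans (hr i)) h5 (A a) (by
      by_contra hcon
      push Not at hcon
      apply ha
      apply MvPolynomial.funext
      intro x
      rw [hev x, hcon x, map_zero])
    exact ⟨g, hg, by rw [hev]; exact h6⟩

end Pool.Agent.Helper6.RG
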