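import Mathlib

/-!
Definitions used in the statement: trees of given register number over read-once formulas.
-/

namespace Pool.Agent.Helper6.RG

open MvPolynomial

/-- `ReadOnce f S`: the polynomial `f` is computed by a read-once formula: a tree of any depth with
gates `+` and `×` of fan-in two whose two inputs have no common variable; the leaves are constants
and univariate polynomials, of any degree, in one of the variables. `S` is the set of the variables
which are read. -/
inductive ReadOnce {n : ℕ} : MvPolynomial (Fin n) ℚ → Finset (Fin n) → Prop
  | const (c : ℚ) : ReadOnce (C c) ∅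
  | leaf (i : Fin n) (F : Polynomial ℚ) : ReadOnce (Polynomial.aeval (X i) F) {i}
  | add {f g : MvPolynomial (Fin n) ℚ} {S T : Finset (Fin n)} : Disjoint S T →
      ReadOnce f S → ReadOnce g T → ReadOnce (f + g) (S ∪ T)
  | mul {f g : MvPolynomial (Fin n) ℚ} {S T : Finset (Fin n)} : Disjoint S T →
      ReadOnce f S → ReadOnce g T → ReadOnce (f * g) (S ∪ T)

/-- The number of registers (Strahler number) at a gate whose two inputs have the numbers `s` and
`t`. -/
def reg (s t : ℕ) : ℕ := if s = t then s + 1 else max s t

/-- `Tree w n p r s`: the vector `p` of `w` polynomials in `ℚ[x_0, …, x_{n-1}]` is computed by a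
tree of any depth. The gates are affine maps of one vector (which are free), the addition of two
vectors and arbitrary bilinear maps `B : ℚ^w × ℚ^w → ℚ^w`; the leaves are constant vectors, vectors
of `w` univariate polynomials of any degree in one of the variables, and vectors all of whose
entries are equal to one polynomial computed by a read-once formula. `r i` is the number of leaves
which read the variable `x_i`, and `s` is the register number (Strahler number) of the tree; the
leaves have register number `0`. -/
inductive Tree (w n : ℕ) : (Fin w → MvPolynomial (Fin n) ℚ) → (Fin n → ℕ) → ℕ → Prop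
  | const (v : Fin w → ℚ) : Tree w n (fun a => C (v a)) 0 0
  | leaf (i : Fin n) (F : Fin w → Polynomial ℚ) :
      Tree w n (fun a => Polynomial.aeval (X i) (F a)) (Pi.single i 1) 0
  | once {f : MvPolynomial (Fin n) ℚ} {S : Finset (Fin n)} (h : ReadOnce f S) :
      Tree w n (fun _ => f) (fun i => if i ∈ S then 1 else 0) 0
  | affine (M : Fin w → Fin w → ℚ) (v : Fin w → ℚ) {p : Fin w → MvPolynomial (Fin n) ℚ}
      {r : Fin n → ℕ} {s : ℕ} : Tree w n p r s →
      Tree w n (fun a => ∑ b, C (M a b) * p b + C (v a)) r s
  | add {p p' : Fin w → MvPolynomial (Fin n) ℚ} {r r' : Fin n → ℕ} {s s' : ℕ} :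
      Tree w n p r s → Tree w n p' r' s' → Tree w n (p + p') (r + r') (reg s s')
  | gate (B : Fin w → Fin w → Fin w → ℚ) {p p' : Fin w → MvPolynomial (Fin n) ℚ}
      {r r' : Fin n → ℕ} {s s' : ℕ} : Tree w n p r s → Tree w n p' r' s' →
      Tree w n (fun a => ∑ b, ∑ c, C (B a b c) * p b * p' c) (r + r') (reg s s')

/-- `RG w n r s f`: the polynomial `f` is a coordinate of a vector of `w` polynomials which is
computed by a tree (see `Tree`) of register number at most `s` in which every variable is read by
at most `r` leaves. For `s = 0` and `w = 1` these are the polynomials computed by read-once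
formulas. -/
def RG (w n r s : ℕ) (f : MvPolynomial (Fin n) ℚ) : Prop :=
  ∃ (p : Fin w → MvPolynomial (Fin n) ℚ) (r' : Fin n → ℕ) (s' : ℕ), Tree w n p r' s' ∧
    (∀ i, r' i ≤ r) ∧ s' ≤ s ∧ ∃ a, p a = f

end Pool.Agent.Helper6.RG
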