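import Pool.Agent.Helper6.RG.Blk
import Pool.Agent.Helper6.RG.Defs

/-!
The register number of a tree program over blocks, and the hitting theorem.
-/

namespace Pool.Agent.Helper6.RG

open MvPolynomial Module Matrix
open Pool.Agent.Helper8 Pool.Agent.Helper8.Tree
open Pool.Agent.Helper5 hiding put put_mem put_not_mem put_self isPolyMap_put exists_generic
  isPolyMap_gen exists_common_poly rho P

variable {w n : ℕ}

theorem reg_comm (s t : ℕ) : reg s t = reg t s := by
  unfold reg
  by_cases h : s = t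
  · subst h; rfl
  · rw [if_neg h, if_neg (Ne.symm h), max_comm]

theorem le_reg_left (s t : ℕ) : s ≤ reg s t := by
  unfold reg
  split_ifs
  · omega
  · exact le_max_left _ _

theorem le_reg_right (s t : ℕ) : t ≤ reg s t := by
  rw [reg_comm]; exact le_reg_left t s

theorem reg_mono {s t s' t' : ℕ} (h : s ≤ s') (h' : t ≤ t') : reg s t ≤ reg s' t' := by
  unfold reg
  split_ifs <;> omega

/-- `HR c m T`: the tree program `T` has register number at most `m` over subprograms for which a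
point of the generator with `c` seeds is good -/
def HR (c : ℕ) : ℕ → Prog ℚ w n → Prop
  | 0, T => ∃ g ∈ Helper5.G n c, AllGood g T
  | m + 1, T => ∃ C T0, Path T C T0 ∧ HR c m T0 ∧ ∀ f ∈ C, HR c m f.2

theorem HR.succ {c m : ℕ} {T : Prog ℚ w n} (h : HR c m T) : HR c (m + 1) T :=
  ⟨[], T, Path.nil T, h, by simp⟩

theorem HR.mono {c m m' : ℕ} (hm : m ≤ m') {T : Prog ℚ w n} (h : HR c m T) : HR c m' T := by
  induction hm with
  | refl => exact h
  | step _ ih => exact ih.succ

theorem HR.left {c m : ℕ} {B : Fin w → Fin w → Fin w → ℚ} {l r : Prog ℚ w n}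
    (hl : HR c (m + 1) l) (hr : HR c m r) : HR c (m + 1) (Prog.node B l r) := by
  obtain ⟨C, T0, h1, h2, h3⟩ := hl
  refine ⟨(B, r) :: C, T0, Path.left r h1, h2, ?_⟩
  intro f hf
  rcases List.mem_cons.1 hf with rfl | hf
  · exact hr
  · exact h3 f hf

theorem HR.right {c m : ℕ} {B : Fin w → Fin w → Fin w → ℚ} {l r : Prog ℚ w n}
    (hl : HR c m l) (hr : HR c (m + 1) r) : HR c (m + 1) (Prog.node B l r) := by
  obtain ⟨C, T0, h1, h2, h3⟩ := hr
  refine ⟨_ :: C, T0, Path.right l h1, h2, ?_⟩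
  intro f hf
  rcases List.mem_cons.1 hf with rfl | hf
  · exact hl
  · exact h3 f hf

theorem HR.node {c s t : ℕ} (B : Fin w → Fin w → Fin w → ℚ) {l r : Prog ℚ w n}
    (hl : HR c s l) (hr : HR c t r) : HR c (reg s t) (Prog.node B l r) := by
  unfold reg
  split_ifs with h
  · subst h
    exact HR.left hl.succ hr
  · rcases Nat.lt_or_ge s t with h1 | h1
    · obtain ⟨t', rfl⟩ : ∃ t', t = t' + 1 := ⟨t - 1, by omega⟩
      rw [max_eq_right (by omega)]
      exact HR.right (hl.mono (by omega)) hr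
    · obtain ⟨s', rfl⟩ : ∃ s', s = s' + 1 := ⟨s - 1, by omega⟩
      rw [max_eq_left (by omega)]
      exact HR.left hl (hr.mono (by omega))

theorem allGood_leaf (g : Fin n → ℚ) (i : Fin n) (F : Fin w → Polynomial ℚ) :
    AllGood g (Prog.leaf i F) := by
  intro D hD g'
  obtain ⟨C0, v, u, h1, h2⟩ := hD
  cases h1
  cases h2
  rw [cmat_nil, cmat_nil]

theorem HR.leaf (c : ℕ) (i : Fin n) (F : Fin w → Polynomial ℚ) : HR c 0 (Prog.leaf i F) := by
  obtain ⟨g, hg⟩ := G_nonempty n c
  exact ⟨g, hg, allGood_leaf g i F⟩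

theorem HR.of_size (c : ℕ) : ∀ (m : ℕ) (T : Prog ℚ w n), T.size ≤ 2 ^ m → HR c m T
  | 0, T, hs => by
    cases T with
    | leaf i F => exact HR.leaf c i F
    | node B l r =>
      exfalso
      have h1 := l.size_pos
      have h2 := r.size_pos
      simp only [Prog.size, pow_zero] at hs
      omega
  | m + 1, T, hs => by
    obtain ⟨C, T0, hC, h1, h2⟩ := exists_spine (2 ^ m) Nat.one_le_two_pow T
      (by rw [pow_succ] at hs; omega)
    exact ⟨C, T0, hC, HR.of_size c m T0 h1, fun f hf => HR.of_size c m f.2 (h2 f hf)⟩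

theorem allGood_of_HR {k c : ℕ} : ∀ (m : ℕ) (T : Prog ℚ w n), (∀ i, T.cnt i ≤ k) →
    HR c m T → ∃ g ∈ Helper5.G n (c + m * ((w + 1) * kap w k)), AllGood g T
  | 0, T, _, h => by
    obtain ⟨g, hg, h1⟩ := h
    exact ⟨g, by simpa using hg, h1⟩
  | m + 1, T, hk, h => by
    have : Inhabited (Frame ℚ w n) := ⟨(0, T)⟩
    obtain ⟨C, T0, hC, h1, h2⟩ := h
    have ih0 := allGood_of_HR m T0 (fun i => (hC.cnt_le i).trans (hk i)) h1
    have ihs : ∀ f ∈ C, ∃ g ∈ Helper5.G n (c + m * ((w + 1) * kap w k)), AllGood g f.2 := by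
      intro f hf
      obtain ⟨C1, h3⟩ := hC.sibling_mem hf
      exact allGood_of_HR m f.2 (fun i => (h3.cnt_le i).trans (hk i)) (h2 f hf)
    obtain ⟨γ, hγ, g1, g2, g3⟩ := spine_good hC hk _ ih0 ihs
    obtain ⟨g, hg, hgood⟩ := step_good hC hk _ γ hγ g1 g2 g3
    refine ⟨g, ?_, hgood⟩
    have : c + (m + 1) * ((w + 1) * kap w k) =
        c + m * ((w + 1) * kap w k) + w * kap w k + kap w k := by ring
    rw [this]; exact hg

/-- **Hitting theorem** for tree programs of given register number. -/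
theorem hit_HR {k m c : ℕ} (T : Prog ℚ w n) (hk : ∀ i, T.cnt i ≤ k) (hs : HR c m T)
    (u : Fin w → ℚ) (hx : ∃ x, u ⬝ᵥ T.val x ≠ 0) :
    ∃ g ∈ Helper5.G n (c + m * ((w + 1) * kap w k) + kap w k), u ⬝ᵥ T.val g ≠ 0 := by
  classical
  have : Inhabited (Frame ℚ w n) := ⟨(0, T)⟩
  obtain ⟨γ, hγ, hgood⟩ := allGood_of_HR m T hk hs
  have hw : 1 ≤ w := by
    by_contra h
    have : w = 0 := by omega
    subst this
    obtain ⟨x, hx⟩ := hx
    simp [dotProduct] at hx
  -- the functional as a 1 × 1 matrix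
  let H : Matrix (Fin w) (Fin 1) ℚ →ₗ[ℚ] Matrix (Fin 1) (Fin 1) ℚ :=
    { toFun := fun X => Matrix.of fun _ _ => u ⬝ᵥ fun i => X i 0
      map_add' := fun X Y => by
        ext a b
        simp only [Matrix.of_apply, Matrix.add_apply, dotProduct]
        rw [← Finset.sum_add_distrib]
        apply Finset.sum_congr rfl
        intro i _; ring
      map_smul' := fun c X => by
        ext a b
        simp only [Matrix.of_apply, Matrix.smul_apply, dotProduct, smul_eq_mul,
          RingHom.id_apply, Finset.mul_sum]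
        apply Finset.sum_congr rfl
        intro i _; ring }
  have hH : ∀ g, (H (col (T.val g))).det = u ⬝ᵥ T.val g := by
    intro g
    rw [Matrix.det_fin_one]
    rfl
  obtain ⟨x', S, hS, h1, h2⟩ := crit_gen T γ hw (fun g => H (col (T.val g)))
    (∑ a, MvPolynomial.C (u a) * T.poly a) (by
      intro g
      rw [hH]
      simp only [map_sum, map_mul, MvPolynomial.eval_C, T.eval_poly]
      rfl) (bnd k).1 (4 * 2 ^ k)
    (fun y S htr => ((RA.tree (htr.mixHG (Path.nil T) hgood) hk).mono (by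
      have := Nat.one_le_two_pow (n := k)
      omega)).linear H) (by
      obtain ⟨x, hx⟩ := hx
      exact ⟨x, by rw [hH]; exact hx⟩)
  rw [hH] at h2
  refine ⟨x', G_step hγ x' S (hS.trans ?_) h1, h2⟩
  unfold kap
  omega

end Pool.Agent.Helper6.RG
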