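import Pool.Agent.Helper6.RG.Rep
import Pool.Agent.Helper6.RG.Conv
import Pool.Agent.Helper8.Occ.Tree

/-!
Sums of few products of polynomials computed by trees of given register number over read-once
formulas.
-/

namespace Pool.Agent.Helper6.RG

open MvPolynomial
open Pool.Agent.Helper8 Pool.Agent.Helper8.ReadKTree Pool.Agent.Helper8.Occ VF
open Pool.Agent.Helper8.T2 (coefAlg mem_coefAlg C_mem_coefAlg coefAlg_mono cxSet card_cxSet cx_mem
  tpar exists_family clog_mul_le grid_hit)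

variable {w n : ℕ}

theorem RG.X {r s : ℕ} (hw : 0 < w) (i : Fin n) : RG w n (r + 1) s (MvPolynomial.X i) := by
  classical
  refine ⟨_, _, _, Tree.leaf i (fun _ => Polynomial.X), fun j => ?_, Nat.zero_le _, ⟨0, hw⟩,
    by simp⟩
  by_cases h : j = i
  · subst h; simp
  · rw [Pi.single_eq_of_ne h]; omega

theorem H2_tree (w n r s k : ℕ) (g : MvPolynomial (Fin n) ℚ) (hg : RG w n r s g) (ρ : ℕ)
    (hρ : ρ ≤ k) (J : Fin ρ → Fin n) :
    ∃ a : Fin (tpar w r k) → MvPolynomial (Fin n) ℚ, (∀ i, RG w n (r + 1) s (a i)) ∧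
      ∀ m, coeff m (aeval (fun v => C (X v) + ∑ j, if J j = v then X j else 0) g :
        MvPolynomial (Fin ρ) (MvPolynomial (Fin n) ℚ)) ∈ Algebra.adjoin ℚ (Set.range a) := by
  classical
  obtain ⟨p, q, t, hp, hr, ht, e, rfl⟩ := hg
  have hw : 0 < w := e.pos
  set Ψ : MvPolynomial (Fin n) ℚ →ₐ[ℚ] MvPolynomial (Fin ρ) (MvPolynomial (Fin n) ℚ) :=
    aeval (fun v => C (MvPolynomial.X v) + ∑ j, if J j = v then MvPolynomial.X j else 0) with hΨ
  set I : Finset (Fin n) := Finset.univ.image J with hI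
  have h1 : ∀ i, i ∉ I → Ψ (MvPolynomial.X i) = C (MvPolynomial.X i) := by
    intro i hi
    rw [hΨ, aeval_X]
    have : ∑ j, (if J j = i then (MvPolynomial.X j :
        MvPolynomial (Fin ρ) (MvPolynomial (Fin n) ℚ)) else 0) = 0 := by
      apply Finset.sum_eq_zero
      intro j _
      rw [if_neg]
      rintro rfl
      exact hi (Finset.mem_image_of_mem _ (Finset.mem_univ _))
    rw [this, add_zero]
  have h2 : ∀ i, Ψ (MvPolynomial.X i) ∈
      coefAlg (Algebra.adjoin ℚ {(MvPolynomial.X i : MvPolynomial (Fin n) ℚ)}) := by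
    intro i
    rw [hΨ, aeval_X]
    refine Subalgebra.add_mem _ (C_mem_coefAlg (Algebra.subset_adjoin rfl))
      (Subalgebra.sum_mem _ fun j _ => ?_)
    split_ifs
    · intro m
      rw [coeff_X]
      split_ifs
      · exact Subalgebra.one_mem _
      · exact Subalgebra.zero_mem _
    · exact Subalgebra.zero_mem _
  obtain ⟨A, v, r₁, z, S, h⟩ := exists_lrep Ψ I hw h1 h2 hp
  have hIcard : I.card ≤ k := (Finset.card_image_le.trans (by simp)).trans hρ
  have hN : ∑ i ∈ I, q i ≤ k * r := by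
    calc ∑ i ∈ I, q i ≤ ∑ _i ∈ I, r := Finset.sum_le_sum fun i _ => hr i
      _ = I.card * r := by rw [Finset.sum_const, smul_eq_mul]
      _ ≤ k * r := Nat.mul_le_mul_right _ hIcard
  have hcard : (S ∪ cxSet A v).card ≤ tpar w r k := by
    refine (Finset.card_union_le _ _).trans ?_
    have h3 := card_cxSet A v
    have h4 : S.card ≤ (k * r) * (1 + 2 * (w * (w + 1))) := by
      rcases h.card with ⟨_, h5⟩ | h5
      · rw [h5]; simp
      · have h6 := Nat.mul_le_mul_right (1 + 2 * (w * (w + 1))) hN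
        omega
    unfold tpar
    omega
  obtain ⟨a, ha1, ha2⟩ := exists_family (S ∪ cxSet A v) _ hcard
  refine ⟨a, ?_, ?_⟩
  · intro i
    rcases ha1 i with h3 | h3
    · rw [Finset.mem_union] at h3
      rcases h3 with h3 | h3
      · rcases h.cls _ h3 with ⟨j, hj⟩ | ⟨p', r', ⟨t', ht', b1⟩, b2, b3, b4⟩
        · rw [hj]; exact RG.X hw j
        · exact ⟨p', r', t', b1, fun i => ((b2 i).trans (hr i)).trans (Nat.le_succ _),
            ht'.trans ht, b3, b4⟩
      · obtain ⟨p', ⟨t', ht', b1⟩, b3, b4⟩ := cx_class h.cx _ h3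
        exact ⟨p', r₁, t', b1, fun i => ((h.le i).trans (hr i)).trans (Nat.le_succ _),
          ht'.trans ht, b3, b4⟩
    · rw [h3]
      have := (RG.C (n := n) hw 0).mono (Nat.zero_le (r + 1)) (Nat.zero_le s)
      rwa [C_0] at this
  · have h3 := h.shift h1 (S' := Set.range a) (fun x hx => ha2 (by
      rw [Finset.coe_union]; exact Or.inl hx)) (fun x hx => ha2 (by
      rw [Finset.coe_union]; exact Or.inr hx)) e
    exact h3

/-- derivatives -/
theorem RG_pd {r s : ℕ} {f : MvPolynomial (Fin n) ℚ} (hf : RG w n r s f) :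
    ∀ L : List (Fin n), RG (2 ^ L.length * w) n r (s + L.length) (pd L f)
  | [] => by simpa using hf
  | v :: L => by
    have h1 := (RG_pd hf L).pderiv v
    have h2 : 2 ^ L.length * w + 2 ^ L.length * w = 2 ^ (v :: L).length * w := by
      rw [List.length_cons, pow_succ]; ring
    rw [h2] at h1
    exact h1

/-- the class of leaves -/
def Cls (n w r s : ℕ) : Set (MvPolynomial (Fin n) ℚ) := {g | RG w n r s g}

theorem zero_mem_Cls (w r s : ℕ) : (0 : MvPolynomial (Fin n) ℚ) ∈ Cls n (w + 1) (r + 1) s := by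
  have := (RG.C (n := n) (Nat.succ_pos w) 0).mono (Nat.zero_le (r + 1)) (Nat.zero_le s)
  rwa [C_0] at this

/-- **(H2)** -/
theorem cls_H2 (w r s k : ℕ) : H2 (Cls n w r s) (Cls n (w + 1) (r + 1) s) k (tpar w r k) := by
  classical
  intro g hg ρ hρ J
  obtain ⟨a, ha1, ha2⟩ := H2_tree w n r s k g hg ρ hρ J
  refine ⟨Finset.univ.image a, ?_, ?_, ?_⟩
  · intro x hx
    obtain ⟨i, _, rfl⟩ := Finset.mem_image.1 hx
    exact (ha1 i).pad (Nat.le_succ w)
  · exact Finset.card_image_le.trans (by simp)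
  · intro m
    have h1 : ((Finset.univ.image a : Finset (MvPolynomial (Fin n) ℚ)) :
        Set (MvPolynomial (Fin n) ℚ)) = Set.range a := by simp
    rw [h1]
    exact ha2 m

/-- the register number for the Jacobian minors, or a size bound -/
def regs (r s Δ M0 n : ℕ) : ℕ := min (s + Δ + 3) (Nat.clog 2 (kb r M0 * n))

/-- the number of seeds for the Jacobian minors -/
def c1 (w r s Δ M0 n : ℕ) : ℕ :=
  seedsT (2 ^ (Δ + 1) * (w + 1)) (kb r M0) (regs r s Δ M0 n)

/-- **(H1)** -/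
theorem cls_H1 (w r s Δ M0 : ℕ) :
    H1 (zgen n) (c1 w r s Δ M0 n) (Dc (Cls n (w + 1) (r + 1) s) Δ) M0 := by
  classical
  intro M hM a ha J hdet
  choose L hL b hb hab using ha
  have h1 : ∀ i j, RG (2 ^ (Δ + 1) * (w + 1)) n (r + 1) (s + Δ + 1) (pderiv (J j) (a i)) := by
    intro i j
    rw [hab i]
    have h2 : RG (w + 1) n (r + 1) s (b i) := hb i
    have h3 := (RG_pd h2 (L i)).pderiv (J j)
    refine RG.mono le_rfl (by have := hL i; omega) (h3.pad ?_)
    calc 2 ^ (L i).length * (w + 1) + 2 ^ (L i).length * (w + 1)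
        = 2 ^ ((L i).length + 1) * (w + 1) := by rw [pow_succ]; ring
      _ ≤ 2 ^ (Δ + 1) * (w + 1) :=
        Nat.mul_le_mul_right _ (Nat.pow_le_pow_right (by norm_num) (Nat.succ_le_succ (hL i)))
  obtain ⟨p, q, t, hp, hq, ht, e, he⟩ := (RG.det (n := n) (by positivity)
    (Matrix.of fun i j => pderiv (J j) (a i)) h1).mono (r' := kb r M0) (by
      unfold kb
      exact Nat.mul_le_mul (Nat.factorial_le hM) (Nat.mul_le_mul_right _ hM))
      (le_refl (s + Δ + 1 + 2))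
  obtain ⟨g, ⟨σ, rfl⟩, hg⟩ := hit_Tree (k := kb r M0) (s := regs r s Δ M0 n) hp hq (by
    unfold regs
    rcases le_total (s + Δ + 3) (Nat.clog 2 (kb r M0 * n)) with h | h
    · left; rw [min_eq_left h]; omega
    · right; rw [min_eq_right h]; exact Nat.le_pow_clog (by norm_num) _) e (by rwa [he])
  rw [he] at hg
  exact zgen_of_seed σ hg

/-- the constant -/
def cR (w r κ k Δ : ℕ) : ℕ :=
  (Nat.clog 2 (kb r (minors κ k (tpar w r k) Δ)) + Δ + 3) *
    ((2 ^ (Δ + 1) * (w + 1) + 2) * Pool.Agent.Helper8.Tree.kap (2 ^ (Δ + 1) * (w + 1) + 1)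
      (kb r (minors κ k (tpar w r k) Δ))) +
  (1 + Pool.Agent.Helper8.Tree.kap (2 ^ (Δ + 1) * (w + 1) + 1) (kb r (minors κ k (tpar w r k) Δ)) +
    extra κ k (tpar w r k) Δ) +
  ((2 ^ (Δ + 1) * (w + 1) + 2) * Pool.Agent.Helper8.Tree.kap (2 ^ (Δ + 1) * (w + 1) + 1)
      (kb r (minors κ k (tpar w r k) Δ)))

theorem cR_le (w r s κ k Δ n : ℕ) :
    c1 w r s Δ (minors κ k (tpar w r k) Δ) n + extra κ k (tpar w r k) Δ ≤
      cR w r κ k Δ * (min s (Nat.clog 2 n) + 1) := by
  unfold c1 cR seedsT regs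
  have h1 := clog_mul_le (kb r (minors κ k (tpar w r k) Δ)) n
  set A := (2 ^ (Δ + 1) * (w + 1) + 2) * Pool.Agent.Helper8.Tree.kap (2 ^ (Δ + 1) * (w + 1) + 1)
      (kb r (minors κ k (tpar w r k) Δ))
  set B := Pool.Agent.Helper8.Tree.kap (2 ^ (Δ + 1) * (w + 1) + 1) (kb r (minors κ k (tpar w r k) Δ))
  set a := Nat.clog 2 (kb r (minors κ k (tpar w r k) Δ))
  set b := Nat.clog 2 n
  set M := extra κ k (tpar w r k) Δ
  set x := Nat.clog 2 (kb r (minors κ k (tpar w r k) Δ) * n)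
  have h2 : min (s + Δ + 3) x ≤ min s b + (a + Δ + 3) := by omega
  have h3 : min (s + Δ + 3) x * A ≤ (min s b + (a + Δ + 3)) * A := Nat.mul_le_mul_right _ h2
  set y := min s b
  have h4 : ((a + Δ + 3) * A + (1 + B + M) + A) * (y + 1) =
      (a + Δ + 3) * A + (1 + B + M) + A + y * A + ((a + Δ + 3) * A + (1 + B + M)) * y := by ring
  rw [h4]
  have h5 : (y + (a + Δ + 3)) * A = y * A + (a + Δ + 3) * A := by ring
  rw [h5] at h3
  omega

/-- **Theorem.** -/
theorem hit_RG {w r s κ k Δ N m R : ℕ} (a : Fin N → ℚ)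
    (g : Fin N → Fin m → MvPolynomial (Fin n) ℚ) (e : Fin N → Fin m → ℕ)
    (hg : ∀ i j, OccFormula κ (RG w n r s) Δ (g i j))
    (htr : ∀ b : Finset (Fin N),
      AlgebraicIndepOn ℚ (fun i => ∏ j, g i j ^ e i j) (b : Set (Fin N)) → b.card ≤ k)
    (h0 : ∑ i, C (a i) * ∏ j, g i j ^ e i j ≠ 0) (f : MvPolynomial (Fin n) ℚ)
    (hf : f ∣ ∑ i, C (a i) * ∏ j, g i j ^ e i j)
    (hR : f.totalDegree ≤ R ∨ 2 ^ (N + 1) * (n * ∑ i, ∑ j, (g i j).totalDegree) + N ≤ R) :
    ∃ x ∈ points n (cR w r κ k Δ * (min s (Nat.clog 2 n) + 1)) R, eval x f ≠ 0 := by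
  classical
  have key := occ_hit (k := k) (κ := κ) (Δ := Δ) (t₀ := tpar w r k)
    (c := c1 w r s Δ (minors κ k (tpar w r k) Δ) n) (zgen n)
    (Cls n w r s) (Cls n (w + 1) (r + 1) s)
    (fun g hg => (RG.pad (Nat.le_succ w) hg).mono (Nat.le_succ r) le_rfl)
    (zero_mem_Cls w r s) (cls_H2 w r s k) (cls_H1 w r s Δ _)
    (fun i => ∏ j, g i j ^ e i j) (by
      intro i
      exact Submonoid.prod_mem _ fun j _ => Submonoid.pow_mem _
        (Submonoid.subset_closure (show g i j ∈ F κ _ Δ from hg i j)) _) htr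
    (∑ i, C (a i) * ∏ j, g i j ^ e i j) (by
      refine Subalgebra.sum_mem _ fun i _ => ?_
      rw [← algebraMap_eq, ← Algebra.smul_def]
      exact Subalgebra.smul_mem _ (Algebra.subset_adjoin (Set.mem_range_self i)) _) h0
  obtain ⟨σ, hσ⟩ := exists_seed_zgen key
  obtain ⟨σ', hσ'⟩ := Pool.Agent.Helper5.G_mono (n := n) (cR_le w r s κ k Δ n) ⟨σ, rfl⟩
  rw [← hσ'] at hσ
  obtain ⟨f', hf'⟩ := hf
  rcases hR with hR | hR
  · refine Pool.Agent.Helper5.hit_grid f R hR _ ⟨σ', fun h => hσ ?_⟩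
    rw [hf', map_mul, h, zero_mul]
  rcases Nat.eq_zero_or_pos n with hn | hn
  · subst hn
    refine Pool.Agent.Helper5.hit_grid f R ?_ _ ⟨σ', fun h => hσ ?_⟩
    · have h1 : f.totalDegree = 0 := by
        rw [totalDegree_eq_zero_iff]
        intro m _ x
        exact x.elim0
      omega
    · rw [hf', map_mul, h, zero_mul]
  · obtain ⟨x, hx, hx0⟩ := grid_hit (L := n * ∑ i, ∑ j, (g i j).totalDegree) a g e
      (by rw [mul_comm]) σ' hσ
    refine ⟨x, Pool.Agent.Helper8.T2.grid_subset_points hn (Nat.succ_le_succ hR) hx,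
      fun h => hx0 ?_⟩
    rw [hf', map_mul, h, zero_mul]

end Pool.Agent.Helper6.RG
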