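import Pool.Agent.Helper8.Tree.Main

/-!
The generator with one seed, as a graded substitution. Polynomials in disjoint sets of variables
which are not constant on the generator have a sum which is not constant on the generator.
-/

namespace Pool.Agent.Helper6.RG

open Polynomial

variable {n : ℕ}

/-- the polynomials `∏_{j ≠ i} (Y - j)` -/
noncomputable def Lp (n : ℕ) (i : Fin n) : ℚ[X] :=
  ∏ j ∈ Finset.univ.erase i, (X - C (j.val : ℚ))

/-- the substitution `X_i ↦ L_i(Y) Z` -/
noncomputable def Psi (n : ℕ) : MvPolynomial (Fin n) ℚ →ₐ[ℚ] ℚ[X][X] :=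
  MvPolynomial.aeval fun i => C (Lp n i) * X

theorem Psi_X (i : Fin n) : Psi n (MvPolynomial.X i) = C (Lp n i) * X := by
  unfold Psi
  rw [MvPolynomial.aeval_X]

theorem Psi_C (c : ℚ) : Psi n (MvPolynomial.C c) = C (C c) := by
  unfold Psi
  rw [MvPolynomial.aeval_C]
  rfl

/-- evaluation -/
theorem eval_Psi (f : MvPolynomial (Fin n) ℚ) (z y : ℚ) :
    ((Psi n f).eval (C z)).eval y =
      MvPolynomial.eval (fun i => z * ∏ j ∈ Finset.univ.erase i, (y - (j.val : ℚ))) f := by
  have h : ((evalRingHom y).comp (evalRingHom (C z))).comp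
      (Psi n : MvPolynomial (Fin n) ℚ →+* ℚ[X][X]) =
      MvPolynomial.eval (fun i => z * ∏ j ∈ Finset.univ.erase i, (y - (j.val : ℚ))) := by
    apply MvPolynomial.ringHom_ext
    · intro r
      simp
    · intro i
      have h1 : eval y (Lp n i) = ∏ j ∈ Finset.univ.erase i, (y - (j.val : ℚ)) := by
        unfold Lp
        rw [eval_prod]
        simp
      have h2 : eval y (eval (C z) (Psi n (MvPolynomial.X i))) =
          (∏ j ∈ Finset.univ.erase i, (y - (j.val : ℚ))) * z := by
        rw [Psi_X, eval_mul, eval_C, eval_X, eval_mul, eval_C, h1]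
      rw [MvPolynomial.eval_X]
      exact h2.trans (mul_comm _ _)
  exact DFunLike.congr_fun h f

theorem exists_eval_ne_zero {P : ℚ[X][X]} (h : P ≠ 0) : ∃ z y : ℚ, (P.eval (C z)).eval y ≠ 0 := by
  by_contra hcon
  push Not at hcon
  apply h
  apply eq_zero_of_infinite_isRoot
  refine (Set.infinite_range_of_injective (C_injective : Function.Injective (C : ℚ → ℚ[X]))).mono ?_
  rintro _ ⟨z, rfl⟩
  show P.eval (C z) = 0
  apply Polynomial.funext
  intro y
  rw [hcon z y, eval_zero]

/-- polynomials which are not killed by the substitution are hit by the generator -/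
theorem exists_seed_of_Psi {f : MvPolynomial (Fin n) ℚ} (h : Psi n f ≠ 0) :
    ∃ s, MvPolynomial.eval (Pool.Agent.Helper5.gen n 1 s) f ≠ 0 := by
  obtain ⟨z, y, h1⟩ := exists_eval_ne_zero h
  rw [eval_Psi] at h1
  refine ⟨Sum.elim (fun _ => z) (fun _ => y), ?_⟩
  have h2 : Pool.Agent.Helper5.gen n 1 (Sum.elim (fun _ => z) (fun _ => y)) =
      fun i => z * ∏ j ∈ Finset.univ.erase i, (y - (j.val : ℚ)) := by
    funext i
    simp [Pool.Agent.Helper5.gen]
  rw [h2]
  exact h1

/-- the coefficient of `Z^d` is divisible by `(Y - j)^d` -/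
noncomputable def Sdiv (j : ℚ) : Subalgebra ℚ ℚ[X][X] where
  carrier := {P | ∀ d, (X - C j) ^ d ∣ P.coeff d}
  mul_mem' := by
    intro P Q hP hQ d
    rw [coeff_mul]
    apply Finset.dvd_sum
    intro x hx
    have hx' : x.1 + x.2 = d := Finset.HasAntidiagonal.mem_antidiagonal.1 hx
    rw [← hx', pow_add]
    exact mul_dvd_mul (hP _) (hQ _)
  add_mem' := by
    intro P Q hP hQ d
    rw [coeff_add]
    exact dvd_add (hP _) (hQ _)
  algebraMap_mem' := by
    intro c d
    change (X - C j) ^ d ∣ (C (C c) : ℚ[X][X]).coeff d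
    rw [coeff_C]
    split_ifs with h
    · rw [h, pow_zero]; exact one_dvd _
    · exact dvd_zero _

/-- the coefficient of `Z^d` has degree at most `(n - 1) d` -/
noncomputable def Sdeg (n : ℕ) : Subalgebra ℚ ℚ[X][X] where
  carrier := {P | ∀ d, (P.coeff d).natDegree ≤ (n - 1) * d}
  mul_mem' := by
    intro P Q hP hQ d
    rw [coeff_mul]
    apply natDegree_sum_le_of_forall_le
    intro x hx
    have hx' : x.1 + x.2 = d := Finset.HasAntidiagonal.mem_antidiagonal.1 hx
    rw [← hx', Nat.mul_add]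
    exact natDegree_mul_le.trans (Nat.add_le_add (hP _) (hQ _))
  add_mem' := by
    intro P Q hP hQ d
    rw [coeff_add]
    exact (natDegree_add_le _ _).trans (max_le (hP _) (hQ _))
  algebraMap_mem' := by
    intro c d
    change ((C (C c) : ℚ[X][X]).coeff d).natDegree ≤ _
    rw [coeff_C]
    split_ifs with h
    · rw [natDegree_C]; exact Nat.zero_le _
    · rw [natDegree_zero]; exact Nat.zero_le _

theorem Psi_X_mem_Sdiv {i : Fin n} {j : Fin n} (h : i ≠ j) :
    Psi n (MvPolynomial.X i) ∈ Sdiv (j.val : ℚ) := by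
  intro d
  rw [Psi_X, coeff_C_mul_X]
  split_ifs with hd
  · rw [hd, pow_one]
    unfold Lp
    exact Finset.dvd_prod_of_mem _ (Finset.mem_erase.2 ⟨h.symm, Finset.mem_univ j⟩)
  · exact dvd_zero _

theorem natDegree_Lp (i : Fin n) : (Lp n i).natDegree = n - 1 := by
  unfold Lp
  rw [natDegree_prod_of_monic _ _ fun j _ => monic_X_sub_C _]
  simp only [natDegree_X_sub_C, Finset.sum_const, Finset.card_erase_of_mem (Finset.mem_univ i),
    Finset.card_univ, Fintype.card_fin, smul_eq_mul, mul_one]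

theorem Lp_ne_zero (i : Fin n) : Lp n i ≠ 0 := by
  unfold Lp
  rw [Finset.prod_ne_zero_iff]
  intro j _
  exact X_sub_C_ne_zero _

theorem Psi_mem_Sdeg (f : MvPolynomial (Fin n) ℚ) : Psi n f ∈ Sdeg n := by
  induction f using MvPolynomial.induction_on with
  | C a =>
    rw [Psi_C]
    exact (Sdeg n).algebraMap_mem a
  | add p q hp hq => rw [map_add]; exact (Sdeg n).add_mem hp hq
  | mul_X p i hp =>
    rw [map_mul]
    refine (Sdeg n).mul_mem hp ?_
    intro d
    rw [Psi_X, coeff_C_mul_X]
    split_ifs with hd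
    · rw [hd, natDegree_Lp, mul_one]
    · rw [natDegree_zero]; exact Nat.zero_le _

/-- a polynomial which is not constant on the generator -/
def NC (f : MvPolynomial (Fin n) ℚ) : Prop := (Psi n f).natDegree ≠ 0

theorem NC.ne_C {f : MvPolynomial (Fin n) ℚ} (h : NC f) (c : ℚ) : f ≠ MvPolynomial.C c := by
  rintro rfl
  apply h
  rw [Psi_C, natDegree_C]

theorem NC.add_C {f : MvPolynomial (Fin n) ℚ} (h : NC f) (c : ℚ) :
    NC (f + MvPolynomial.C c) := by
  unfold NC at *
  rw [map_add, Psi_C, natDegree_add_C]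
  exact h

theorem NC.C_mul {f : MvPolynomial (Fin n) ℚ} (h : NC f) {c : ℚ} (hc : c ≠ 0) :
    NC (MvPolynomial.C c * f) := by
  unfold NC at *
  rw [map_mul, Psi_C, natDegree_C_mul_of_mul_ne_zero]
  · exact h
  · refine mul_ne_zero (by rwa [Ne, C_eq_zero]) ?_
    rw [Ne, leadingCoeff_eq_zero]
    intro h0
    rw [h0, natDegree_zero] at h
    exact h rfl

theorem NC.Psi_ne_zero {f : MvPolynomial (Fin n) ℚ} (h : NC f) : Psi n f ≠ 0 := by
  intro h0
  apply h
  rw [h0, natDegree_zero]

theorem NC.mul {f g : MvPolynomial (Fin n) ℚ} (hf : NC f) (hg : Psi n g ≠ 0) : NC (f * g) := by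
  unfold NC
  rw [map_mul, natDegree_mul hf.Psi_ne_zero hg]
  have := hf
  unfold NC at this
  omega

/-- a non constant univariate polynomial is not constant on the generator -/
theorem NC_aeval_X (i : Fin n) {F : ℚ[X]} (hF : F.natDegree ≠ 0) :
    NC (aeval (MvPolynomial.X i : MvPolynomial (Fin n) ℚ) F) := by
  unfold NC
  rw [← aeval_algHom_apply, Psi_X]
  have h1 : aeval (C (Lp n i) * X : ℚ[X][X]) F = (F.map (algebraMap ℚ ℚ[X])).comp (C (Lp n i) * X) := by
    rw [comp, eval₂_map, aeval_def]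
    rfl
  rw [h1, natDegree_comp, natDegree_map, natDegree_C_mul_X _ (Lp_ne_zero i), mul_one]
  exact hF

theorem aeval_X_mem_Sdiv {i j : Fin n} (h : i ≠ j) (F : ℚ[X]) :
    Psi n (aeval (MvPolynomial.X i : MvPolynomial (Fin n) ℚ) F) ∈ Sdiv (j.val : ℚ) := by
  rw [← aeval_algHom_apply]
  exact (Algebra.adjoin_le (Set.singleton_subset_iff.mpr (Psi_X_mem_Sdiv h)))
    (aeval_mem_adjoin_singleton ℚ _)

/-- **disjoint sums** -/
theorem NC_add {f g : MvPolynomial (Fin n) ℚ} {S T : Finset (Fin n)} (hST : Disjoint S T)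
    (hf : ∀ j, j ∉ S → Psi n f ∈ Sdiv (j.val : ℚ)) (hg : ∀ j, j ∉ T → Psi n g ∈ Sdiv (j.val : ℚ))
    (h : NC f) : NC (f + g) := by
  rcases Nat.eq_zero_or_pos n with hn | hn
  · subst hn
    exfalso
    obtain ⟨c, hc⟩ : ∃ c, f = MvPolynomial.C c := ⟨_, MvPolynomial.eq_C_of_isEmpty f⟩
    exact h.ne_C c hc
  intro h0
  apply h
  rw [natDegree_eq_zero_iff_degree_le_zero, degree_le_zero_iff]
  ext1 d
  rw [coeff_C]
  split_ifs with hd
  · rw [hd]
  · have h1 : (Psi n f).coeff d + (Psi n g).coeff d = 0 := by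
      rw [← coeff_add, ← map_add]
      apply coeff_eq_zero_of_natDegree_lt
      omega
    have h2 : ∀ j : Fin n, (X - C (j.val : ℚ)) ^ d ∣ (Psi n f).coeff d := by
      intro j
      by_cases hj : j ∈ S
      · have h3 := hg j (Finset.disjoint_left.1 hST hj) d
        rw [eq_neg_of_add_eq_zero_left h1]
        exact (dvd_neg).2 h3
      · exact hf j hj d
    have h3 : ∏ j : Fin n, (X - C (j.val : ℚ)) ^ d ∣ (Psi n f).coeff d := by
      apply Finset.prod_dvd_of_coprime
      · intro a _ b _ hab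
        have h4 := pairwise_coprime_X_sub_C (K := ℚ) (s := fun j : Fin n => (j.val : ℚ))
          (by
            intro a b hab
            have h5 : (a.val : ℚ) = (b.val : ℚ) := hab
            have : a.val = b.val := by exact_mod_cast h5
            exact Fin.ext this) hab
        exact IsCoprime.pow h4
      · intro j _
        exact h2 j
    by_contra hne
    have h5 := natDegree_le_of_dvd h3 hne
    rw [natDegree_prod_of_monic _ _ fun j _ => (monic_X_sub_C _).pow d] at h5
    simp only [natDegree_pow, natDegree_X_sub_C, mul_one, Finset.sum_const, Finset.card_univ,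
      Fintype.card_fin, smul_eq_mul] at h5
    have h6 := Psi_mem_Sdeg f d
    have h7 : n * d ≤ (n - 1) * d := h5.trans h6
    have h8 : n ≤ n - 1 := Nat.le_of_mul_le_mul_right h7 (Nat.pos_of_ne_zero hd)
    omega

end Pool.Agent.Helper6.RG
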